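import Pool.Agent.Lib.AN30.Main

set_option autoImplicit false

namespace Pool.Agent.Results.MP_1309d3_ag.AnickTame

open MvPolynomial Pool.Agent.Lib.MP_1309d3_ag

theorem result (n : ℕ) (a b : Fin n) (hab : a ≠ b) :
    ∃ F : Aut n, F (X a) = X a + X b ^ 2 ∧ (∀ l, l ≠ a → F (X l) = X l) ∧
      ∀ (i j k : Fin n), i ≠ j → i ≠ k → j ≠ k →
      ∀ α d p₁ p f : MvPolynomial (Fin n) ℂ,
        i ∉ α.vars → j ∉ α.vars → k ∉ α.vars → i ∉ d.vars → j ∉ d.vars → k ∉ d.vars →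
        j ∉ p₁.vars → k ∉ p₁.vars → k ∉ p.vars →
        f ∈ Algebra.adjoin ℂ ({α * X j - p₁, d * X k - p} ∪ X '' ({i, j, k}ᶜ : Set (Fin n))) →
        ∃ φ ∈ gen {F}, φ (X i) = X i + α * d * f ∧ φ (α * X j - p₁) = α * X j - p₁ ∧
          φ (d * X k - p) = d * X k - p ∧ ∀ l, l ≠ i → l ≠ j → l ≠ k → φ (X l) = X l := by
  have hq : (X b ^ 2 : MvPolynomial (Fin n) ℂ) ∈ supported ℂ {a}ᶜ :=
    pow_mem (Lib.AN30.X_sup hab.symm) _
  obtain ⟨F, h1, h2⟩ := Lib.AN30.exists_aut a 1 one_ne_zero hq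
  rw [one_smul] at h1
  refine ⟨F, h1, h2, fun i j k hij hik hjk α d p₁ p f a1 a2 a3 d1 d2 d3 q1 q2 q3 hf => ?_⟩
  have hΓ : Aff n ⊆ gen {F} := fun σ hσ => Subgroup.subset_closure (Or.inl hσ)
  have h3 : ∀ a b : Fin n, ∃ c, a ≠ c ∧ b ≠ c := fun a b => by
    by_contra h
    simp only [not_exists, not_and, not_not] at h
    have hi := h i
    have hj := h j
    have hk := h k
    grind
  refine Lib.AN30.flow_mem (fun c q hc => (Lib.AN30.Hs.all hΓ h3 hab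
    ⟨hq, F, Subgroup.subset_closure (Or.inr rfl), h1, h2⟩ hc).2) hij hik hjk ?_ ?_ ?_ ?_ hf
  all_goals
    refine mem_supported.mpr fun l hl e => ?_
    simp only [Set.mem_insert_iff, Set.mem_singleton_iff, Finset.mem_coe] at hl e
    grind

end Pool.Agent.Results.MP_1309d3_ag.AnickTame
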