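import Pool.Agent.Lib.AN30.Derk
import Pool.Agent.Lib.ST61.Fin

set_option autoImplicit false

namespace Pool.Agent.Results.MP_1309d3_ag.GenericTame

open MvPolynomial Pool.Agent.Lib.MP_1309d3_ag Pool.Agent.Lib.ST61

theorem result (n : ℕ) (hn : 3 ≤ n) (a b : Fin (n + 1)) (hab : a ≠ b) :
    ∃ F : Aut (n + 1), F (X a) = X a + X b ^ 2 ∧ (∀ l, l ≠ a → F (X l) = X l) ∧
      ∀ (i j : Fin n), i ≠ j → ∀ φ : Aut (n + 1), φ (X 0) = X 0 →
        (∃ ψ ∈ Subgroup.closure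
            (Tri (RatFunc ℂ) i j ∪ Plane (RatFunc ℂ) i j ∪ Lin (RatFunc ℂ) i j),
          ∀ l, ψ (X l) = generic n (φ (X l.succ))) → φ ∈ gen {F} := by
  have hq : (X b ^ 2 : MvPolynomial (Fin (n + 1)) ℂ) ∈ supported ℂ {a}ᶜ :=
    pow_mem (Lib.AN30.X_sup hab.symm) _
  obtain ⟨F, h1, h2⟩ := Lib.AN30.exists_aut a 1 one_ne_zero hq
  rw [one_smul] at h1
  refine ⟨F, h1, h2, fun i j hij φ h0 ⟨ψ, hψ, h⟩ => ?_⟩
  have hΓ : Aff (n + 1) ⊆ gen {F} := fun σ hσ => Subgroup.subset_closure (Or.inl hσ)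
  have h3 : ∀ a b : Fin (n + 1), ∃ c, a ≠ c ∧ b ≠ c := fun a b => by
    by_contra h
    simp only [not_exists, not_and, not_not] at h
    have h0 := h ⟨0, by omega⟩
    have h1 := h ⟨1, by omega⟩
    have h2 := h ⟨2, by omega⟩
    grind
  exact descent hn hΓ (fun c q hc => (Lib.AN30.Hs.all hΓ h3 hab
    ⟨hq, F, Subgroup.subset_closure (Or.inr rfl), h1, h2⟩ hc).2) hij h0 hψ h

end Pool.Agent.Results.MP_1309d3_ag.GenericTame
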