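import Pool.Agent.Lib.MP_1309d3_ag.Main

set_option autoImplicit false

namespace Pool.Agent.Results.MP_1309d3_ag.NonGenerating

open Pool.Agent.Lib.MP_1309d3_ag

/-- In every dimension there are tame automorphisms of length four which generate, together with
the affine group, a group without non-affine elements of small degree and which is not generated
by the affine group and fewer than continuum many of its elements. -/
theorem result (n : ℕ) (hn : 2 ≤ n) (N : ℕ) :
    ∃ T : Set (Aut n), T ⊆ FourElem n ∧
      (∀ φ ∈ gen T, φ ∈ Aff n ∨ ∃ i, N ≤ (φ (MvPolynomial.X i)).totalDegree) ∧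
      ∀ S : Set (Aut n), S ⊆ gen T → Cardinal.mk S < Cardinal.continuum → gen S ≠ gen T :=
  main n hn N

end Pool.Agent.Results.MP_1309d3_ag.NonGenerating
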